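import Pool.Agent.H7.Alpha8

namespace Pool.Agent.Results.MP_b87acb_an.Limits

open Pool.Agent.H7.Alpha Filter Topology

universe v

lemma sq_lim {a : ℕ → ENNReal} {l u d : ℕ → ℝ} {c : ℝ} (hd : ∀ n, 1 ≤ n → 0 < d n)
    (h1 : ∀ n, 1 ≤ n → ENNReal.ofReal (l n) ≤ a n) (h2 : ∀ n, 1 ≤ n → a n ≤ ENNReal.ofReal (u n))
    (h3 : ∀ n, 1 ≤ n → l n / d n = c) (h4 : Tendsto (fun n => u n / d n) atTop (𝓝 c)) :
    Tendsto (fun n => a n / ENNReal.ofReal (d n)) atTop (𝓝 (ENNReal.ofReal c)) := by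
  refine tendsto_of_tendsto_of_tendsto_of_le_of_le' tendsto_const_nhds (ENNReal.tendsto_ofReal h4)
    ?_ ?_ <;> filter_upwards [eventually_ge_atTop 1] with n hn
  · rw [← h3 n hn, ENNReal.ofReal_div_of_pos (hd n hn)]
    exact ENNReal.div_le_div_right (h1 n hn) _
  · rw [ENNReal.ofReal_div_of_pos (hd n hn)]
    exact ENNReal.div_le_div_right (h2 n hn) _

lemma lim : Tendsto (fun n : ℕ => ((n : ℝ) + 1) / 2 / n) atTop (𝓝 (1 / 2)) := by
  have := ((tendsto_const_div_atTop_nhds_zero_nat (1 : ℝ)).const_add 1).div_const 2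
  rw [add_zero] at this
  refine this.congr' ?_
  filter_upwards [eventually_ge_atTop 1] with n hn
  have : (0 : ℝ) < n := by exact_mod_cast hn
  field_simp

lemma t1 : Tendsto (fun n : ℕ => alpha.{v} (Fin n → ℂ) / ENNReal.ofReal √n) atTop
    (𝓝 (ENNReal.ofReal (√2)⁻¹)) := by
  refine sq_lim (l := fun n => √(n / 2)) (u := fun n => √((n + 1) / 2))
    (fun n hn => Real.sqrt_pos.mpr (by exact_mod_cast hn)) (fun n _ => le_alpha_linf n)
    (fun n hn => (alpha_linf_le n).trans (ENNReal.ofReal_le_ofReal (Real.sqrt_le_sqrt ?_)))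
    (fun n hn => ?_) ?_
  · have h : (1 : ℝ) ≤ n := by exact_mod_cast hn
    have : √((n : ℝ) ^ 2 - n + 1) ≤ n := Real.sqrt_le_iff.mpr ⟨by linarith, by linarith⟩
    linarith
  · have : 0 < √(n : ℝ) := Real.sqrt_pos.mpr (by exact_mod_cast hn)
    rw [Real.sqrt_div (by positivity)]
    field_simp
  · have := lim.sqrt
    rw [one_div, Real.sqrt_inv] at this
    exact this.congr fun n => Real.sqrt_div (by positivity) _

lemma t2 : Tendsto (fun n : ℕ => alpha.{v} (EuclideanSpace ℂ (Fin n)) / ENNReal.ofReal n) atTop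
    (𝓝 (ENNReal.ofReal (1 / 2))) := by
  refine sq_lim (l := fun n => n / 2) (u := fun n => (n + 1) / 2)
    (fun n hn => by exact_mod_cast hn) (fun n _ => le_trans (ENNReal.ofReal_le_ofReal ?_)
      (le_alpha_l2 n (n / 2) (Nat.div_le_self _ _))) (fun n _ => alpha_l2_le n) (fun n hn => ?_) lim
  · have h1 : ((2 * (n / 2) : ℕ) : ℝ) ≤ n := by exact_mod_cast Nat.mul_div_le n 2
    have h2 : (n : ℝ) ≤ ((2 * (n / 2) + 1 : ℕ) : ℝ) := by exact_mod_cast (by omega)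
    push_cast at h1 h2
    refine Real.le_sqrt_of_sq_le ?_
    nlinarith [Nat.cast_nonneg (α := ℝ) (n / 2)]
  · have : (0 : ℝ) < n := by exact_mod_cast hn
    field_simp

theorem result :
    (Tendsto (fun n : ℕ => alpha.{v} (Fin n → ℂ) / ENNReal.ofReal √n) atTop
      (𝓝 (ENNReal.ofReal (√2)⁻¹)) ∧
    limsup (fun n : ℕ => alpha.{v} (Fin n → ℂ) / ENNReal.ofReal √n) atTop
      = ENNReal.ofReal (√2)⁻¹) ∧
    (Tendsto (fun n : ℕ => alpha.{v} (EuclideanSpace ℂ (Fin n)) / ENNReal.ofReal n) atTop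
      (𝓝 (ENNReal.ofReal (1 / 2))) ∧
    limsup (fun n : ℕ => alpha.{v} (EuclideanSpace ℂ (Fin n)) / ENNReal.ofReal n) atTop
      = ENNReal.ofReal (1 / 2)) :=
  ⟨⟨t1, t1.limsup_eq⟩, t2, t2.limsup_eq⟩

end Pool.Agent.Results.MP_b87acb_an.Limits
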